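import Mathlib

/-!
# Multiple tilings of the Euclidean plane by convex polygons

Definitions for `MP_548d6e_co`: multiple tilings of density `d`, edge-disjoint, vertex-disjoint,
isohedral and irreducible multiple tilings.  A multiple tiling is a *family* of tiles, indexed by
an arbitrary type.
-/

set_option autoImplicit false

namespace Pool.Agent.Helper97.Double

open Set

/-- The Euclidean plane. -/
abbrev Plane := EuclideanSpace ℝ (Fin 2)

/-- Twice the signed area of the triangle `a b c`; it is positive iff `c` lies strictly to the left
of the line directed from `a` to `b`. -/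
def turn (a b c : Plane) : ℝ := (b 0 - a 0) * (c 1 - a 1) - (b 1 - a 1) * (c 0 - a 0)

/-- A (nondegenerate) convex polygon with `n ≥ 3` corners `v 0, ..., v (n-1)`, listed
counterclockwise (indices modulo `n`): every other corner lies strictly to the left of each
directed side, so all angles are smaller than `π`. -/
structure ConvexPolygon where
  /-- number of corners -/
  n : ℕ
  three_le : 3 ≤ n
  /-- the corners, in counterclockwise order -/
  v : ZMod n → Plane
  convex : ∀ i j : ZMod n, j ≠ i → j ≠ i + 1 → 0 < turn (v i) (v (i + 1)) (v j)

namespace ConvexPolygon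

/-- The closed region: the convex hull of the corners. -/
def carrier (P : ConvexPolygon) : Set Plane := convexHull ℝ (range P.v)

/-- The side from corner `k` to the next corner. -/
def side (P : ConvexPolygon) (k : ZMod P.n) : Set Plane := segment ℝ (P.v k) (P.v (k + 1))

end ConvexPolygon

/-- `T` is a multiple tiling of density `d`: a locally finite family (every bounded set meets only
finitely many of the tiles) such that every point on the boundary of no tile lies in the interiors
of exactly `d` tiles. -/
def IsMultipleTiling {ι : Type*} (T : ι → ConvexPolygon) (d : ℕ) : Prop :=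
  (∀ B : Set Plane, Bornology.IsBounded B → {i | ((T i).carrier ∩ B).Nonempty}.Finite) ∧
  ∀ x : Plane, (∀ i, x ∉ frontier (T i).carrier) →
    {i | x ∈ interior (T i).carrier}.encard = d

/-- Edge-disjoint: no segment of positive length contained in an edge (in particular, no edge)
lies on the boundaries of more than two tiles. -/
def EdgeDisjoint {ι : Type*} (T : ι → ConvexPolygon) : Prop :=
  ∀ (i : ι) (k : ZMod (T i).n) (a b : Plane), a ≠ b → segment ℝ a b ⊆ (T i).side k →
    {j | segment ℝ a b ⊆ frontier (T j).carrier}.encard ≤ 2

/-- Vertex-disjoint: for every vertex `V`, the tiles whose boundary contains `V` form one single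
circuit `c 0, ..., c (m-1)` around `V` (indices modulo `m`, tiles pairwise distinct): all these
tiles have `V` as a corner, and the sides at `V` of the tile `c k` are the segments from `V` to
`w k` and from `V` to `w (k + 1)` (in counterclockwise order), so that the consecutive tiles `c k`
and `c (k + 1)` share the edge from `V` to `w (k + 1)`; the vertices `w 0, ..., w (m-1)` of the
vertex figure are pairwise distinct.  The circuit may wind around `V` several times. -/
def VertexDisjoint {ι : Type*} (T : ι → ConvexPolygon) : Prop :=
  ∀ V : Plane, (∃ (i : ι) (k : ZMod (T i).n), (T i).v k = V) →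
    ∃ (m : ℕ) (c : ZMod m → ι) (w : ZMod m → Plane), 3 ≤ m ∧ Function.Injective c ∧
      Function.Injective w ∧ range c = {i | V ∈ frontier (T i).carrier} ∧
      ∀ k : ZMod m, ∃ j : ZMod (T (c k)).n,
        (T (c k)).v j = V ∧ (T (c k)).v (j + 1) = w k ∧ (T (c k)).v (j - 1) = w (k + 1)

/-- Isohedral: the isometries of the plane that map the family onto itself act transitively on
the tiles. -/
def Isohedral {ι : Type*} (T : ι → ConvexPolygon) : Prop :=
  ∀ i j : ι, ∃ (φ : Plane ≃ᵢ Plane) (σ : ι ≃ ι),
    (∀ k, φ '' (T k).carrier = (T (σ k)).carrier) ∧ σ i = j

/-- Irreducible (as a multiple tiling of density `d`): the family is not the superposition of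
`r ≥ 2` multiple tilings, each of density at least `1` and lower than `d`. -/
def Irreducible {ι : Type*} (T : ι → ConvexPolygon) (d : ℕ) : Prop :=
  ¬ ∃ (r : ℕ) (f : ι → Fin r) (e : Fin r → ℕ), 2 ≤ r ∧ ∀ a : Fin r,
    1 ≤ e a ∧ e a < d ∧ IsMultipleTiling (fun i : {i : ι // f i = a} => T i.1) (e a)

end Pool.Agent.Helper97.Double
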