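import Mathlib
import Pool.Agent.Helper97.Double.Defs

set_option autoImplicit false

namespace Pool.Agent.Helper97.Double

open Set

/-- abscissas of the corners -/
def cx : ZMod 8 → ℤ := ![0, -2, -8, -10, -8, 8, 14, 16]
/-- ordinates of the corners -/
def cy : ZMod 8 → ℤ := ![-6, -2, 6, 2, -6, -42, -50, -42]

/-- coefficients of the sides: the octagon is `A κ x + B κ y ≤ C κ` for all `κ` -/
def cA : ZMod 8 → ℤ := ![2, 4, -2, -4, -9, -4, 4, 9]
def cB : ZMod 8 → ℤ := ![1, 3, 1, -1, -4, -3, -1, 4]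
def cC : ZMod 8 → ℤ := ![-6, -14, 22, 38, 96, 94, 106, -24]

/-- the tiles are indexed by the elements `(x,y) ↦ (x + 8 m, ± y + 48 k)` of the group -/
abbrev Idx := Bool × ℤ × ℤ

/-- sign -/
def sg (b : Bool) : ℤ := if b then 1 else -1

@[simp] lemma sg_true : sg true = 1 := rfl
@[simp] lemma sg_false : sg false = -1 := rfl
lemma sg_mul_self (b : Bool) : sg b * sg b = 1 := by cases b <;> rfl

/-- order of the corners -/
def ord (b : Bool) (i : ZMod 8) : ZMod 8 := if b then i else -i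

/-- corner `i` of tile `g` (integer coordinates) -/
def vx (g : Idx) (i : ZMod 8) : ℤ := cx (ord g.1 i) + 8 * g.2.1
def vy (g : Idx) (i : ZMod 8) : ℤ := sg g.1 * cy (ord g.1 i) + 48 * g.2.2

/-- integer points of the plane -/
noncomputable def pt (a b : ℤ) : Plane := !₂[(a : ℝ), (b : ℝ)]

@[simp] lemma pt_zero (a b : ℤ) : pt a b 0 = a := by simp [pt]
@[simp] lemma pt_one (a b : ℤ) : pt a b 1 = b := by simp [pt]

lemma pt_inj {a b c d : ℤ} (h : pt a b = pt c d) : a = c ∧ b = d := by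
  have h0 := congrArg (fun p : Plane => p 0) h
  have h1 := congrArg (fun p : Plane => p 1) h
  simp only [pt_zero, pt_one] at h0 h1
  exact ⟨by exact_mod_cast h0, by exact_mod_cast h1⟩

lemma turn_pt (a b c d e f : ℤ) :
    turn (pt a b) (pt c d) (pt e f) = (((c - a) * (f - b) - (d - b) * (e - a) : ℤ) : ℝ) := by
  simp only [turn, pt_zero, pt_one]; push_cast; ring

lemma convex_true : ∀ i j : ZMod 8, j ≠ i → j ≠ i + 1 →
    0 < (cx (i+1) - cx i) * (cy j - cy i) - (cy (i+1) - cy i) * (cx j - cx i) := by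
  decide

/-- The tile with index `g`. -/
noncomputable def T (g : Idx) : ConvexPolygon where
  n := 8
  three_le := by norm_num
  v i := pt (vx g i) (vy g i)
  convex := by
    intro i j h1 h2
    rw [turn_pt]
    have key : 0 < (vx g (i+1) - vx g i) * (vy g j - vy g i)
        - (vy g (i+1) - vy g i) * (vx g j - vx g i) := by
      obtain ⟨b, m, k⟩ := g
      cases b
      · have h := convex_true (-i-1) (-j) (by
            intro h; apply h2; have : j = i + 1 := by
              have := congrArg (fun t => -t) h; simpa [add_comm] using this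
            exact this) (by
            intro h; apply h1; have := congrArg (fun t => -t) h; simpa using this)
        have e1 : -i - 1 + 1 = -i := by ring
        have e2 : -(i+1) = -i - 1 := by ring
        simp only [vx, vy, ord, sg_false, Bool.false_eq_true, if_false, e2]
        rw [e1] at h
        have e3 : ∀ a b c d e f : ℤ, (c - a) * (-f - (-b)) - (-d - (-b)) * (e - a) =
          (c - a) * (b - f) - (b - d) * (e - a) := by intros; ring
        nlinarith [h]
      · have h := convex_true i j h1 h2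
        simp only [vx, vy, ord, sg_true, if_true]
        nlinarith [h]
    exact_mod_cast key


/-- The octagon as an intersection of half-planes. -/
def InP (x y : ℝ) : Prop := ∀ κ : ZMod 8, (cA κ : ℝ) * x + (cB κ : ℝ) * y ≤ cC κ
/-- Its interior. -/
def InPo (x y : ℝ) : Prop := ∀ κ : ZMod 8, (cA κ : ℝ) * x + (cB κ : ℝ) * y < cC κ

lemma forall_zmod8 {p : ZMod 8 → Prop} :
    (∀ κ, p κ) ↔ p 0 ∧ p 1 ∧ p 2 ∧ p 3 ∧ p 4 ∧ p 5 ∧ p 6 ∧ p 7 := by
  constructor
  · intro h; exact ⟨h 0, h 1, h 2, h 3, h 4, h 5, h 6, h 7⟩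
  · rintro ⟨h0, h1, h2, h3, h4, h5, h6, h7⟩ κ
    fin_cases κ <;> assumption

@[simp] lemma cA0 : cA 0 = 2 := rfl
@[simp] lemma cA1 : cA 1 = 4 := rfl
@[simp] lemma cA2 : cA 2 = -2 := rfl
@[simp] lemma cA3 : cA 3 = -4 := rfl
@[simp] lemma cA4 : cA 4 = -9 := rfl
@[simp] lemma cA5 : cA 5 = -4 := rfl
@[simp] lemma cA6 : cA 6 = 4 := rfl
@[simp] lemma cA7 : cA 7 = 9 := rfl
@[simp] lemma cB0 : cB 0 = 1 := rfl
@[simp] lemma cB1 : cB 1 = 3 := rfl
@[simp] lemma cB2 : cB 2 = 1 := rfl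
@[simp] lemma cB3 : cB 3 = -1 := rfl
@[simp] lemma cB4 : cB 4 = -4 := rfl
@[simp] lemma cB5 : cB 5 = -3 := rfl
@[simp] lemma cB6 : cB 6 = -1 := rfl
@[simp] lemma cB7 : cB 7 = 4 := rfl
@[simp] lemma cC0 : cC 0 = -6 := rfl
@[simp] lemma cC1 : cC 1 = -14 := rfl
@[simp] lemma cC2 : cC 2 = 22 := rfl
@[simp] lemma cC3 : cC 3 = 38 := rfl
@[simp] lemma cC4 : cC 4 = 96 := rfl
@[simp] lemma cC5 : cC 5 = 94 := rfl
@[simp] lemma cC6 : cC 6 = 106 := rfl
@[simp] lemma cC7 : cC 7 = -24 := rfl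

lemma inP_iff (x y : ℝ) : InP x y ↔ 2*x+y ≤ -6 ∧ 4*x+3*y ≤ -14 ∧ -2*x+y ≤ 22 ∧ -4*x-y ≤ 38 ∧
    -9*x-4*y ≤ 96 ∧ -4*x-3*y ≤ 94 ∧ 4*x-y ≤ 106 ∧ 9*x+4*y ≤ -24 := by
  unfold InP
  rw [forall_zmod8]
  simp only [cA0, cA1, cA2, cA3, cA4, cA5, cA6, cA7, cB0, cB1, cB2, cB3, cB4, cB5, cB6, cB7,
    cC0, cC1, cC2, cC3, cC4, cC5, cC6, cC7]
  push_cast
  constructor
  · rintro ⟨h0, h1, h2, h3, h4, h5, h6, h7⟩
    refine ⟨?_, ?_, ?_, ?_, ?_, ?_, ?_, ?_⟩ <;> linarith
  · rintro ⟨h0, h1, h2, h3, h4, h5, h6, h7⟩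
    refine ⟨?_, ?_, ?_, ?_, ?_, ?_, ?_, ?_⟩ <;> linarith

lemma inPo_iff (x y : ℝ) : InPo x y ↔ 2*x+y < -6 ∧ 4*x+3*y < -14 ∧ -2*x+y < 22 ∧ -4*x-y < 38 ∧
    -9*x-4*y < 96 ∧ -4*x-3*y < 94 ∧ 4*x-y < 106 ∧ 9*x+4*y < -24 := by
  unfold InPo
  rw [forall_zmod8]
  simp only [cA0, cA1, cA2, cA3, cA4, cA5, cA6, cA7, cB0, cB1, cB2, cB3, cB4, cB5, cB6, cB7,
    cC0, cC1, cC2, cC3, cC4, cC5, cC6, cC7]
  push_cast
  constructor
  · rintro ⟨h0, h1, h2, h3, h4, h5, h6, h7⟩
    refine ⟨?_, ?_, ?_, ?_, ?_, ?_, ?_, ?_⟩ <;> linarith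
  · rintro ⟨h0, h1, h2, h3, h4, h5, h6, h7⟩
    refine ⟨?_, ?_, ?_, ?_, ?_, ?_, ?_, ?_⟩ <;> linarith

/-- base vertices -/
noncomputable def bv (i : ZMod 8) : Plane := pt (cx i) (cy i)

lemma comb3 {s : Set Plane} {a b c : Plane} (ha : a ∈ s) (hb : b ∈ s) (hc : c ∈ s)
    {α β γ : ℝ} (h1 : 0 ≤ α) (h2 : 0 ≤ β) (h3 : 0 ≤ γ) (hs : α + β + γ = 1) :
    α • a + β • b + γ • c ∈ convexHull ℝ s := by
  have := (convex_convexHull ℝ s).sum_mem (t := Finset.univ) (w := ![α, β, γ]) (z := ![a, b, c])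
    (by intro i _; fin_cases i <;> simpa) (by simp [Fin.sum_univ_three, hs])
    (by intro i _; fin_cases i <;> simp <;> exact subset_convexHull ℝ s (by assumption))
  simpa [Fin.sum_univ_three] using this

lemma plane_ext {p q : Plane} (h0 : p 0 = q 0) (h1 : p 1 = q 1) : p = q := by
  ext i; fin_cases i <;> assumption

lemma mem_hull_of_tri {p : Plane} (i j : ZMod 8) (D : ℝ) (hD : 0 < D)
    (hDe : D = turn (bv 0) (bv i) (bv j))
    (h1 : 0 ≤ turn (bv i) (bv j) p) (h2 : 0 ≤ turn (bv j) (bv 0) p)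
    (h3 : 0 ≤ turn (bv 0) (bv i) p) : p ∈ convexHull ℝ (range bv) := by
  have e : p = (turn (bv i) (bv j) p / D) • bv 0 + (turn (bv j) (bv 0) p / D) • bv i +
      (turn (bv 0) (bv i) p / D) • bv j := by
    have hD' : D ≠ 0 := hD.ne'
    apply plane_ext
    · simp only [PiLp.add_apply, PiLp.smul_apply, smul_eq_mul]
      rw [← sub_eq_zero]
      have : D * (p 0 - (turn (bv i) (bv j) p / D * bv 0 0 + turn (bv j) (bv 0) p / D * bv i 0 +
        turn (bv 0) (bv i) p / D * bv j 0)) = 0 := by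
        field_simp
        rw [hDe]; simp only [turn]; ring
      exact (mul_eq_zero.mp this).resolve_left hD'
    · simp only [PiLp.add_apply, PiLp.smul_apply, smul_eq_mul]
      rw [← sub_eq_zero]
      have : D * (p 1 - (turn (bv i) (bv j) p / D * bv 0 1 + turn (bv j) (bv 0) p / D * bv i 1 +
        turn (bv 0) (bv i) p / D * bv j 1)) = 0 := by
        field_simp
        rw [hDe]; simp only [turn]; ring
      exact (mul_eq_zero.mp this).resolve_left hD'
  rw [e]
  refine comb3 (mem_range_self _) (mem_range_self _) (mem_range_self _) (by positivity)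
    (by positivity) (by positivity) ?_
  field_simp
  rw [hDe]; simp only [turn]; ring

@[simp] lemma cx0 : cx 0 = 0 := rfl
@[simp] lemma cx1 : cx 1 = -2 := rfl
@[simp] lemma cx2 : cx 2 = -8 := rfl
@[simp] lemma cx3 : cx 3 = -10 := rfl
@[simp] lemma cx4 : cx 4 = -8 := rfl
@[simp] lemma cx5 : cx 5 = 8 := rfl
@[simp] lemma cx6 : cx 6 = 14 := rfl
@[simp] lemma cx7 : cx 7 = 16 := rfl
@[simp] lemma cy0 : cy 0 = -6 := rfl
@[simp] lemma cy1 : cy 1 = -2 := rfl
@[simp] lemma cy2 : cy 2 = 6 := rfl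
@[simp] lemma cy3 : cy 3 = 2 := rfl
@[simp] lemma cy4 : cy 4 = -6 := rfl
@[simp] lemma cy5 : cy 5 = -42 := rfl
@[simp] lemma cy6 : cy 6 = -50 := rfl
@[simp] lemma cy7 : cy 7 = -42 := rfl

lemma hull_eq : convexHull ℝ (range bv) = {p : Plane | InP (p 0) (p 1)} := by
  apply Subset.antisymm
  · apply convexHull_min
    · have key : ∀ i : ZMod 8, InP (cx i) (cy i) := by
        rw [forall_zmod8]
        simp only [inP_iff, cx0, cx1, cx2, cx3, cx4, cx5, cx6, cx7, cy0, cy1, cy2, cy3, cy4, cy5,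
          cy6, cy7]
        norm_num
      rintro _ ⟨i, rfl⟩
      simpa [bv] using key i
    · intro p hp q hq a b ha hb hab
      simp only [mem_ofPred_eq] at hp hq ⊢
      intro κ
      have h1 := hp κ
      have h2 := hq κ
      simp only [PiLp.add_apply, PiLp.smul_apply, smul_eq_mul]
      have e : (cC κ : ℝ) = a * cC κ + b * cC κ := by rw [← add_mul, hab, one_mul]
      rw [e]
      nlinarith [mul_le_mul_of_nonneg_left h1 ha, mul_le_mul_of_nonneg_left h2 hb]
  · intro p hp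
    simp only [mem_ofPred_eq, inP_iff] at hp
    obtain ⟨h0, h1, h2, h3, h4, h5, h6, h7⟩ := hp
    have T : ∀ i j : ZMod 8, ∀ q : Plane, turn (bv i) (bv j) q =
      ((cx j - cx i : ℤ) : ℝ) * (q 1 - cy i) - ((cy j - cy i : ℤ) : ℝ) * (q 0 - cx i) := by
      intro i j q; simp only [turn, bv, pt_zero, pt_one]; push_cast; ring
    rcases le_total 0 (turn (bv 0) (bv 2) p) with g2 | g2
    · rcases le_total 0 (turn (bv 0) (bv 3) p) with g3 | g3
      · rcases le_total 0 (turn (bv 0) (bv 4) p) with g4 | g4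
        · rcases le_total 0 (turn (bv 0) (bv 5) p) with g5 | g5
          · rcases le_total 0 (turn (bv 0) (bv 6) p) with g6 | g6
            · refine mem_hull_of_tri 6 7 _ ?_ rfl ?_ ?_ ?_ <;> rw [T] <;> (try rw [T] at g6) <;>
                simp [bv] at * <;> (try norm_num at *) <;> linarith
            · refine mem_hull_of_tri 5 6 _ ?_ rfl ?_ ?_ ?_ <;> rw [T] <;> (try rw [T] at g6) <;>
                (try rw [T] at g5) <;>
                simp [bv] at * <;> norm_num at * <;> linarith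
          · refine mem_hull_of_tri 4 5 _ ?_ rfl ?_ ?_ ?_ <;> rw [T] <;> (try rw [T] at g4) <;>
                (try rw [T] at g5) <;>
                simp [bv] at * <;> norm_num at * <;> linarith
        · refine mem_hull_of_tri 3 4 _ ?_ rfl ?_ ?_ ?_ <;> rw [T] <;> (try rw [T] at g3) <;>
                (try rw [T] at g4) <;>
                simp [bv] at * <;> norm_num at * <;> linarith
      · refine mem_hull_of_tri 2 3 _ ?_ rfl ?_ ?_ ?_ <;> rw [T] <;> (try rw [T] at g2) <;>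
                (try rw [T] at g3) <;>
                simp [bv] at * <;> norm_num at * <;> linarith
    · refine mem_hull_of_tri 1 2 _ ?_ rfl ?_ ?_ ?_ <;> rw [T] <;> (try rw [T] at g2) <;>
                simp [bv] at * <;> norm_num at * <;> linarith


lemma interior_halfplane (a b c : ℝ) (h : a ≠ 0 ∨ b ≠ 0) :
    interior {p : Plane | a * p 0 + b * p 1 ≤ c} = {p : Plane | a * p 0 + b * p 1 < c} := by
  let f : Plane →L[ℝ] ℝ := a • (EuclideanSpace.proj (0 : Fin 2)) + b • (EuclideanSpace.proj (1 : Fin 2))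
  have hf : ∀ p, f p = a * p 0 + b * p 1 := by intro p; simp [f]
  have hs : Function.Surjective f := by
    intro t
    have hab : a * a + b * b ≠ 0 := by
      rcases h with h | h
      · have := mul_self_pos.mpr h; nlinarith [mul_self_nonneg b]
      · have := mul_self_pos.mpr h; nlinarith [mul_self_nonneg a]
    refine ⟨!₂[t * a / (a * a + b * b), t * b / (a * a + b * b)], ?_⟩
    have hab' : a ^ 2 + b ^ 2 ≠ 0 := by simpa [sq] using hab
    rw [hf]
    simp
    field_simp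
  have ho : IsOpenMap f := f.isOpenMap hs
  have h1 : {p : Plane | a * p 0 + b * p 1 ≤ c} = f ⁻¹' Iic c := by ext p; simp [hf]
  have h2 : {p : Plane | a * p 0 + b * p 1 < c} = f ⁻¹' Iio c := by ext p; simp [hf]
  rw [h1, h2, ← ho.preimage_interior_eq_interior_preimage f.continuous, interior_Iic]

lemma cA_ne (κ : ZMod 8) : cA κ ≠ 0 := by revert κ; decide

lemma interior_base :
    interior {p : Plane | InP (p 0) (p 1)} = {p : Plane | InPo (p 0) (p 1)} := by
  have h1 : {p : Plane | InP (p 0) (p 1)} =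
      ⋂ κ : ZMod 8, {p : Plane | (cA κ : ℝ) * p 0 + (cB κ : ℝ) * p 1 ≤ cC κ} := by
    ext p; simp [InP]
  have h2 : {p : Plane | InPo (p 0) (p 1)} =
      ⋂ κ : ZMod 8, {p : Plane | (cA κ : ℝ) * p 0 + (cB κ : ℝ) * p 1 < cC κ} := by
    ext p; simp [InPo]
  rw [h1, h2, interior_iInter_of_finite]
  congr 1
  ext κ : 1
  exact interior_halfplane _ _ _ (Or.inl (by exact_mod_cast cA_ne κ))

/-- the isometry with index `g` -/
noncomputable def phi (g : Idx) : Plane ≃ᵢ Plane where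
  toFun p := !₂[p 0 + 8 * (g.2.1 : ℝ), (sg g.1 : ℝ) * p 1 + 48 * (g.2.2 : ℝ)]
  invFun p := !₂[p 0 - 8 * (g.2.1 : ℝ), (sg g.1 : ℝ) * (p 1 - 48 * (g.2.2 : ℝ))]
  left_inv p := by
    have h : ((sg g.1 : ℤ) : ℝ) * ((sg g.1 : ℤ) : ℝ) = 1 := by exact_mod_cast sg_mul_self g.1
    apply plane_ext
    · simp
    · simp [← mul_assoc, h]
  right_inv p := by
    have h : ((sg g.1 : ℤ) : ℝ) * ((sg g.1 : ℤ) : ℝ) = 1 := by exact_mod_cast sg_mul_self g.1
    apply plane_ext
    · simp
    · simp [← mul_assoc, h]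
  isometry_toFun := by
    apply Isometry.of_dist_eq
    intro p q
    have h : ((sg g.1 : ℤ) : ℝ) * ((sg g.1 : ℤ) : ℝ) = 1 := by exact_mod_cast sg_mul_self g.1
    rw [EuclideanSpace.dist_eq, EuclideanSpace.dist_eq]
    congr 1
    simp only [Fin.sum_univ_two, Real.dist_eq, sq_abs]
    simp
    linear_combination (p 1 - q 1)^2 * h

@[simp] lemma phi_zero (g : Idx) (p : Plane) : phi g p 0 = p 0 + 8 * (g.2.1 : ℝ) := by
  simp [phi]
@[simp] lemma phi_one (g : Idx) (p : Plane) :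
    phi g p 1 = (sg g.1 : ℝ) * p 1 + 48 * (g.2.2 : ℝ) := by
  simp [phi]
@[simp] lemma phi_symm_zero (g : Idx) (p : Plane) :
    (phi g).symm p 0 = p 0 - 8 * (g.2.1 : ℝ) := by
  simp [phi, IsometryEquiv.symm]
@[simp] lemma phi_symm_one (g : Idx) (p : Plane) :
    (phi g).symm p 1 = (sg g.1 : ℝ) * (p 1 - 48 * (g.2.2 : ℝ)) := by
  simp [phi, IsometryEquiv.symm]


/-- composition in the index group -/
def comp (g h : Idx) : Idx :=
  if g.1 then (h.1, g.2.1 + h.2.1, g.2.2 + h.2.2) else (!h.1, g.2.1 + h.2.1, g.2.2 - h.2.2)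

/-- left multiplication is a bijection -/
def compEquiv (g : Idx) : Idx ≃ Idx where
  toFun h := comp g h
  invFun h := if g.1 then (h.1, h.2.1 - g.2.1, h.2.2 - g.2.2) else (!h.1, h.2.1 - g.2.1, g.2.2 - h.2.2)
  left_inv h := by
    obtain ⟨b, m, k⟩ := g; obtain ⟨b', m', k'⟩ := h
    cases b <;> simp [comp]
  right_inv h := by
    obtain ⟨b, m, k⟩ := g; obtain ⟨b', m', k'⟩ := h
    cases b <;> simp [comp]

lemma sg_not (b : Bool) : sg (!b) = - sg b := by cases b <;> rfl

lemma phi_comp (g h : Idx) (p : Plane) : phi (comp g h) p = phi g (phi h p) := by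
  obtain ⟨b, m, k⟩ := g; obtain ⟨b', m', k'⟩ := h
  cases b <;> apply plane_ext <;> simp [comp, sg_not] <;> ring

lemma T_v (g : Idx) (i : ZMod 8) : (T g).v i = phi g (bv (ord g.1 i)) := by
  apply plane_ext
  · show pt (vx g i) (vy g i) 0 = _
    simp [vx, bv]
  · show pt (vx g i) (vy g i) 1 = _
    simp [vy, bv]

lemma ord_ord (b : Bool) (i : ZMod 8) : ord b (ord b i) = i := by cases b <;> simp [ord]

lemma range_T (g : Idx) : range (T g).v = phi g '' range bv := by
  apply Subset.antisymm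
  · rintro _ ⟨i, rfl⟩
    exact ⟨bv (ord g.1 i), mem_range_self _, (T_v g i).symm⟩
  · rintro _ ⟨_, ⟨i, rfl⟩, rfl⟩
    refine ⟨ord g.1 i, ?_⟩
    have := T_v g (ord g.1 i)
    rw [ord_ord] at this
    exact this

lemma phi_convexHull (g : Idx) (s : Set Plane) :
    convexHull ℝ (phi g '' s) = phi g '' convexHull ℝ s := by
  have h := AffineMap.image_convexHull ((phi g).toRealAffineIsometryEquiv.toAffineEquiv.toAffineMap) s
  have e : ∀ t : Set Plane, ((phi g).toRealAffineIsometryEquiv.toAffineEquiv.toAffineMap) '' t =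
      phi g '' t := by
    intro t; ext x; simp
  rw [e, e] at h
  exact h.symm

lemma carrier_eq (g : Idx) : (T g).carrier = phi g '' {p : Plane | InP (p 0) (p 1)} := by
  rw [ConvexPolygon.carrier, range_T, phi_convexHull, hull_eq]

lemma mem_carrier (g : Idx) (p : Plane) : p ∈ (T g).carrier ↔
    InP (p 0 - 8 * (g.2.1 : ℝ)) ((sg g.1 : ℝ) * (p 1 - 48 * (g.2.2 : ℝ))) := by
  rw [carrier_eq]
  constructor
  · rintro ⟨q, hq, rfl⟩
    have h : ((sg g.1 : ℤ) : ℝ) * ((sg g.1 : ℤ) : ℝ) = 1 := by exact_mod_cast sg_mul_self g.1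
    simpa [← mul_assoc, h] using hq
  · intro h
    exact ⟨(phi g).symm p, by simpa using h, by simp⟩

lemma interior_carrier (g : Idx) : interior (T g).carrier =
    phi g '' {p : Plane | InPo (p 0) (p 1)} := by
  rw [carrier_eq, ← interior_base]
  exact ((phi g).toHomeomorph.image_interior _).symm

lemma mem_interior (g : Idx) (p : Plane) : p ∈ interior (T g).carrier ↔
    InPo (p 0 - 8 * (g.2.1 : ℝ)) ((sg g.1 : ℝ) * (p 1 - 48 * (g.2.2 : ℝ))) := by
  rw [interior_carrier]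
  constructor
  · rintro ⟨q, hq, rfl⟩
    have h : ((sg g.1 : ℤ) : ℝ) * ((sg g.1 : ℤ) : ℝ) = 1 := by exact_mod_cast sg_mul_self g.1
    simpa [← mul_assoc, h] using hq
  · intro h
    exact ⟨(phi g).symm p, by simpa using h, by simp⟩

lemma isClosed_carrier (g : Idx) : IsClosed (T g).carrier := by
  have : (T g).carrier = ⋂ κ : ZMod 8, {p : Plane | (cA κ : ℝ) * (p 0 - 8 * (g.2.1 : ℝ)) +
      (cB κ : ℝ) * ((sg g.1 : ℝ) * (p 1 - 48 * (g.2.2 : ℝ))) ≤ cC κ} := by
    ext p; rw [mem_carrier]; simp [InP]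
  rw [this]
  refine isClosed_iInter fun κ => isClosed_le ?_ ?_ <;> fun_prop

lemma mem_frontier (g : Idx) (p : Plane) : p ∈ frontier (T g).carrier ↔
    p ∈ (T g).carrier ∧ p ∉ interior (T g).carrier := by
  rw [(isClosed_carrier g).frontier_eq]; rfl

/-- The tiling is isohedral. -/
theorem isohedral : Isohedral T := by
  intro i j
  refine ⟨(phi i).symm.trans (phi j), (compEquiv i).symm.trans (compEquiv j), ?_, ?_⟩
  · intro k
    have h : ∀ g h : Idx, (T (compEquiv g h)).carrier = phi g '' (T h).carrier := by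
      intro g h
      show (T (comp g h)).carrier = _
      rw [carrier_eq, carrier_eq, image_image]
      congr 1
      ext p : 1
      exact phi_comp g h p
    obtain ⟨k', rfl⟩ := (compEquiv i).surjective k
    rw [h]
    simp only [Equiv.trans_apply, Equiv.symm_apply_apply]
    rw [h, image_image]
    simp
  · simp only [Equiv.trans_apply]
    have : (compEquiv i).symm i = (true, 0, 0) := by
      rw [Equiv.symm_apply_eq]
      obtain ⟨b, m, k⟩ := i
      cases b <;> simp [compEquiv, comp]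
    rw [this]
    obtain ⟨b, m, k⟩ := j
    cases b <;> simp [compEquiv, comp]

end Pool.Agent.Helper97.Double
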