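import Mathlib
import Pool.Agent.Helper97.Double.Example

set_option autoImplicit false

namespace Pool.Agent.Helper97.Double

open Set

/-- shift of an index by a translation of the lattice -/
def shift (m0 k0 : ℤ) (g : Idx) : Idx := (g.1, g.2.1 + m0, g.2.2 + k0)

lemma shift_injective (m0 k0 : ℤ) : Function.Injective (shift m0 k0) := by
  rintro ⟨b, m, k⟩ ⟨b', m', k'⟩ h
  simpa [shift] using h

lemma vx_shift (m0 k0 : ℤ) (g : Idx) (j : ZMod 8) : vx (shift m0 k0 g) j = vx g j + 8 * m0 := by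
  simp only [vx, shift]; ring

lemma vy_shift (m0 k0 : ℤ) (g : Idx) (j : ZMod 8) : vy (shift m0 k0 g) j = vy g j + 48 * k0 := by
  simp only [vy, shift]; ring

/-- membership of an integer point in a tile -/
def inZ (p q : ℤ) (g : Idx) : Prop :=
  ∀ κ : ZMod 8, cA κ * (p - 8 * g.2.1) + cB κ * (sg g.1 * (q - 48 * g.2.2)) ≤ cC κ

/-- membership of an integer point in the interior of a tile -/
def inZo (p q : ℤ) (g : Idx) : Prop :=
  ∀ κ : ZMod 8, cA κ * (p - 8 * g.2.1) + cB κ * (sg g.1 * (q - 48 * g.2.2)) < cC κ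

lemma pt_mem_carrier (p q : ℤ) (g : Idx) : pt p q ∈ (T g).carrier ↔ inZ p q g := by
  rw [mem_carrier, pt_zero, pt_one]
  unfold InP inZ
  refine forall_congr' fun κ => ?_
  rw [← Int.cast_le (R := ℝ)]
  push_cast
  exact Iff.rfl

lemma pt_mem_interior (p q : ℤ) (g : Idx) : pt p q ∈ interior (T g).carrier ↔ inZo p q g := by
  rw [mem_interior, pt_zero, pt_one]
  unfold InPo inZo
  refine forall_congr' fun κ => ?_
  rw [← Int.cast_lt (R := ℝ)]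
  push_cast
  exact Iff.rfl

lemma pt_mem_frontier (p q : ℤ) (g : Idx) :
    pt p q ∈ frontier (T g).carrier ↔ inZ p q g ∧ ¬ inZo p q g := by
  rw [mem_frontier, pt_mem_carrier, pt_mem_interior]

lemma inZ_shift (p q m0 k0 : ℤ) (g : Idx) :
    inZ (p + 8 * m0) (q + 48 * k0) (shift m0 k0 g) ↔ inZ p q g := by
  unfold inZ shift
  have e1 : p + 8 * m0 - 8 * (g.2.1 + m0) = p - 8 * g.2.1 := by ring
  have e2 : q + 48 * k0 - 48 * (g.2.2 + k0) = q - 48 * g.2.2 := by ring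
  simp only [e1, e2]

lemma inZo_shift (p q m0 k0 : ℤ) (g : Idx) :
    inZo (p + 8 * m0) (q + 48 * k0) (shift m0 k0 g) ↔ inZo p q g := by
  unfold inZo shift
  have e1 : p + 8 * m0 - 8 * (g.2.1 + m0) = p - 8 * g.2.1 := by ring
  have e2 : q + 48 * k0 - 48 * (g.2.2 + k0) = q - 48 * g.2.2 := by ring
  simp only [e1, e2]

lemma inZ_iff (p q : ℤ) (b : Bool) (m k : ℤ) : inZ p q (b, m, k) ↔
    2*(p-8*m)+(sg b*(q-48*k)) ≤ -6 ∧ 4*(p-8*m)+3*(sg b*(q-48*k)) ≤ -14 ∧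
    -2*(p-8*m)+(sg b*(q-48*k)) ≤ 22 ∧ -4*(p-8*m)-(sg b*(q-48*k)) ≤ 38 ∧
    -9*(p-8*m)-4*(sg b*(q-48*k)) ≤ 96 ∧ -4*(p-8*m)-3*(sg b*(q-48*k)) ≤ 94 ∧
    4*(p-8*m)-(sg b*(q-48*k)) ≤ 106 ∧ 9*(p-8*m)+4*(sg b*(q-48*k)) ≤ -24 := by
  unfold inZ
  rw [forall_zmod8]
  simp only [cA0, cA1, cA2, cA3, cA4, cA5, cA6, cA7, cB0, cB1, cB2, cB3, cB4, cB5, cB6, cB7,
    cC0, cC1, cC2, cC3, cC4, cC5, cC6, cC7]
  constructor <;> rintro ⟨h0, h1, h2, h3, h4, h5, h6, h7⟩ <;>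
    refine ⟨?_, ?_, ?_, ?_, ?_, ?_, ?_, ?_⟩ <;> linarith

lemma inZo_iff (p q : ℤ) (b : Bool) (m k : ℤ) : inZo p q (b, m, k) ↔
    2*(p-8*m)+(sg b*(q-48*k)) < -6 ∧ 4*(p-8*m)+3*(sg b*(q-48*k)) < -14 ∧
    -2*(p-8*m)+(sg b*(q-48*k)) < 22 ∧ -4*(p-8*m)-(sg b*(q-48*k)) < 38 ∧
    -9*(p-8*m)-4*(sg b*(q-48*k)) < 96 ∧ -4*(p-8*m)-3*(sg b*(q-48*k)) < 94 ∧
    4*(p-8*m)-(sg b*(q-48*k)) < 106 ∧ 9*(p-8*m)+4*(sg b*(q-48*k)) < -24 := by
  unfold inZo
  rw [forall_zmod8]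
  simp only [cA0, cA1, cA2, cA3, cA4, cA5, cA6, cA7, cB0, cB1, cB2, cB3, cB4, cB5, cB6, cB7,
    cC0, cC1, cC2, cC3, cC4, cC5, cC6, cC7]
  constructor <;> rintro ⟨h0, h1, h2, h3, h4, h5, h6, h7⟩ <;>
    refine ⟨?_, ?_, ?_, ?_, ?_, ?_, ?_, ?_⟩ <;> linarith

/-- The property required of the vertex `V`. -/
def VertexOK (V : Plane) : Prop :=
    ∃ (m : ℕ) (c : ZMod m → Idx) (w : ZMod m → Plane), 3 ≤ m ∧ Function.Injective c ∧
      Function.Injective w ∧ range c = {i | V ∈ frontier (T i).carrier} ∧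
      ∀ k : ZMod m, ∃ j : ZMod (T (c k)).n,
        (T (c k)).v j = V ∧ (T (c k)).v (j + 1) = w k ∧ (T (c k)).v (j - 1) = w (k + 1)

lemma vertexOK_of {n : ℕ} (hn : 3 ≤ n) (c : ZMod n → Idx) (w : ZMod n → ℤ × ℤ) (p q : ℤ)
    (hc : Function.Injective c) (hw : Function.Injective w)
    (hr : ∀ g : Idx, (inZ p q g ∧ ¬ inZo p q g) ↔ ∃ k, c k = g)
    (hj : ∀ k : ZMod n, ∃ j : ZMod 8, (vx (c k) j = p ∧ vy (c k) j = q) ∧
      (vx (c k) (j + 1) = (w k).1 ∧ vy (c k) (j + 1) = (w k).2) ∧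
      (vx (c k) (j - 1) = (w (k + 1)).1 ∧ vy (c k) (j - 1) = (w (k + 1)).2))
    (m0 k0 : ℤ) : VertexOK (pt (p + 8 * m0) (q + 48 * k0)) := by
  refine ⟨n, fun k => shift m0 k0 (c k), fun k => pt ((w k).1 + 8 * m0) ((w k).2 + 48 * k0), hn,
    (shift_injective m0 k0).comp hc, ?_, ?_, ?_⟩
  · intro a b hab
    obtain ⟨h1, h2⟩ := pt_inj hab
    exact hw (Prod.ext (by linarith) (by linarith))
  · ext g
    obtain ⟨g', rfl⟩ : ∃ g', shift m0 k0 g' = g := by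
      obtain ⟨b, m, k⟩ := g
      exact ⟨(b, m - m0, k - k0), by simp [shift]⟩
    simp only [mem_range, mem_ofPred_eq, pt_mem_frontier, inZ_shift, inZo_shift]
    rw [hr]
    constructor
    · rintro ⟨k, hk⟩; exact ⟨k, shift_injective m0 k0 hk⟩
    · rintro ⟨k, hk⟩; exact ⟨k, by rw [hk]⟩
  · intro k
    obtain ⟨j, ⟨h1, h2⟩, ⟨h3, h4⟩, ⟨h5, h6⟩⟩ := hj k
    refine ⟨j, ?_, ?_, ?_⟩
    · show pt (vx (shift m0 k0 (c k)) j) (vy (shift m0 k0 (c k)) j) = _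
      rw [vx_shift, vy_shift, h1, h2]
    · show pt (vx (shift m0 k0 (c k)) (j + 1)) (vy (shift m0 k0 (c k)) (j + 1)) = _
      rw [vx_shift, vy_shift, h3, h4]
    · show pt (vx (shift m0 k0 (c k)) (j - 1)) (vy (shift m0 k0 (c k)) (j - 1)) = _
      rw [vx_shift, vy_shift, h5, h6]

def c0p : ZMod 5 → Idx := ![(true, 0, 0), (true, 1, 0), (false, -2, -1), (false, -1, -1), (false, 1, 0)]
def w0p : ZMod 5 → ℤ × ℤ := ![(-2, -2), (16, -42), (-2, 2), (-16, -42), (6, 2)]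
def c0m : ZMod 5 → Idx := ![(false, 0, 0), (true, 1, 0), (true, -1, 1), (true, -2, 1), (false, 1, 0)]
def w0m : ZMod 5 → ℤ × ℤ := ![(16, 42), (-2, 2), (6, -2), (-16, 42), (-2, -2)]
def c1p : ZMod 3 → Idx := ![(true, 0, 0), (false, 1, 0), (true, -2, 1)]
def w1p : ZMod 3 → ℤ × ℤ := ![(-8, 6), (0, -6), (0, 6)]
def c1m : ZMod 3 → Idx := ![(false, 0, 0), (false, -2, -1), (true, 1, 0)]
def w1m : ZMod 3 → ℤ × ℤ := ![(0, 6), (-8, -6), (0, -6)]

lemma exists_zmod5 {p : ZMod 5 → Prop} : (∃ k, p k) ↔ p 0 ∨ p 1 ∨ p 2 ∨ p 3 ∨ p 4 := by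
  constructor
  · rintro ⟨k, hk⟩
    fin_cases k
    · exact Or.inl hk
    · exact Or.inr (Or.inl hk)
    · exact Or.inr (Or.inr (Or.inl hk))
    · exact Or.inr (Or.inr (Or.inr (Or.inl hk)))
    · exact Or.inr (Or.inr (Or.inr (Or.inr hk)))
  · rintro (h | h | h | h | h) <;> exact ⟨_, h⟩

lemma exists_zmod3 {p : ZMod 3 → Prop} : (∃ k, p k) ↔ p 0 ∨ p 1 ∨ p 2 := by
  constructor
  · rintro ⟨k, hk⟩
    fin_cases k
    · exact Or.inl hk
    · exact Or.inr (Or.inl hk)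
    · exact Or.inr (Or.inr hk)
  · rintro (h | h | h) <;> exact ⟨_, h⟩

lemma ok0p (m0 k0 : ℤ) : VertexOK (pt (0 + 8 * m0) (-6 + 48 * k0)) := by
  refine vertexOK_of (by norm_num) c0p w0p 0 (-6) (by decide) (by decide) ?_ (by decide) m0 k0
  rintro ⟨b, m, k⟩
  rw [exists_zmod5, inZ_iff, inZo_iff]
  have e0 : c0p 0 = (true, 0, 0) := rfl
  have e1 : c0p 1 = (true, 1, 0) := rfl
  have e2 : c0p 2 = (false, -2, -1) := rfl
  have e3 : c0p 3 = (false, -1, -1) := rfl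
  have e4 : c0p 4 = (false, 1, 0) := rfl
  rw [e0, e1, e2, e3, e4]
  cases b <;> simp only [sg_true, sg_false, Prod.mk.injEq, true_and, false_and, false_or, or_false,
    reduceCtorEq] <;> omega

lemma ok0m (m0 k0 : ℤ) : VertexOK (pt (0 + 8 * m0) (6 + 48 * k0)) := by
  refine vertexOK_of (by norm_num) c0m w0m 0 6 (by decide) (by decide) ?_ (by decide) m0 k0
  rintro ⟨b, m, k⟩
  rw [exists_zmod5, inZ_iff, inZo_iff]
  have e0 : c0m 0 = (false, 0, 0) := rfl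
  have e1 : c0m 1 = (true, 1, 0) := rfl
  have e2 : c0m 2 = (true, -1, 1) := rfl
  have e3 : c0m 3 = (true, -2, 1) := rfl
  have e4 : c0m 4 = (false, 1, 0) := rfl
  rw [e0, e1, e2, e3, e4]
  cases b <;> simp only [sg_true, sg_false, Prod.mk.injEq, true_and, false_and, false_or, or_false,
    reduceCtorEq] <;> omega

lemma ok1p (m0 k0 : ℤ) : VertexOK (pt (-2 + 8 * m0) (-2 + 48 * k0)) := by
  refine vertexOK_of (by norm_num) c1p w1p (-2) (-2) (by decide) (by decide) ?_ (by decide) m0 k0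
  rintro ⟨b, m, k⟩
  rw [exists_zmod3, inZ_iff, inZo_iff]
  have e0 : c1p 0 = (true, 0, 0) := rfl
  have e1 : c1p 1 = (false, 1, 0) := rfl
  have e2 : c1p 2 = (true, -2, 1) := rfl
  rw [e0, e1, e2]
  cases b <;> simp only [sg_true, sg_false, Prod.mk.injEq, true_and, false_and, false_or, or_false,
    reduceCtorEq] <;> omega

lemma ok1m (m0 k0 : ℤ) : VertexOK (pt (-2 + 8 * m0) (2 + 48 * k0)) := by
  refine vertexOK_of (by norm_num) c1m w1m (-2) 2 (by decide) (by decide) ?_ (by decide) m0 k0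
  rintro ⟨b, m, k⟩
  rw [exists_zmod3, inZ_iff, inZo_iff]
  have e0 : c1m 0 = (false, 0, 0) := rfl
  have e1 : c1m 1 = (false, -2, -1) := rfl
  have e2 : c1m 2 = (true, 1, 0) := rfl
  rw [e0, e1, e2]
  cases b <;> simp only [sg_true, sg_false, Prod.mk.injEq, true_and, false_and, false_or, or_false,
    reduceCtorEq] <;> omega

lemma vertex_aux (i : Idx) (k : ZMod 8) : VertexOK (pt (vx i k) (vy i k)) := by
  have h : ∀ κ : ZMod 8, ∀ e : Bool,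
      (∃ m0 k0 : ℤ, cx κ = 0 + 8 * m0 ∧ sg e * cy κ = -6 + 48 * k0) ∨
      (∃ m0 k0 : ℤ, cx κ = 0 + 8 * m0 ∧ sg e * cy κ = 6 + 48 * k0) ∨
      (∃ m0 k0 : ℤ, cx κ = -2 + 8 * m0 ∧ sg e * cy κ = -2 + 48 * k0) ∨
      (∃ m0 k0 : ℤ, cx κ = -2 + 8 * m0 ∧ sg e * cy κ = 2 + 48 * k0) := by
    rw [forall_zmod8]
    simp only [cx0, cx1, cx2, cx3, cx4, cx5, cx6, cx7, cy0, cy1, cy2, cy3, cy4, cy5, cy6, cy7]
    refine ⟨?_, ?_, ?_, ?_, ?_, ?_, ?_, ?_⟩ <;> intro e <;> cases e <;>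
      simp only [sg_true, sg_false]
    · right; left; exact ⟨0, 0, by norm_num, by norm_num⟩
    · left; exact ⟨0, 0, by norm_num, by norm_num⟩
    · right; right; right; exact ⟨0, 0, by norm_num, by norm_num⟩
    · right; right; left; exact ⟨0, 0, by norm_num, by norm_num⟩
    · left; exact ⟨-1, 0, by norm_num, by norm_num⟩
    · right; left; exact ⟨-1, 0, by norm_num, by norm_num⟩
    · right; right; left; exact ⟨-1, 0, by norm_num, by norm_num⟩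
    · right; right; right; exact ⟨-1, 0, by norm_num, by norm_num⟩
    · right; left; exact ⟨-1, 0, by norm_num, by norm_num⟩
    · left; exact ⟨-1, 0, by norm_num, by norm_num⟩
    · left; exact ⟨1, 1, by norm_num, by norm_num⟩
    · right; left; exact ⟨1, -1, by norm_num, by norm_num⟩
    · right; right; right; exact ⟨2, 1, by norm_num, by norm_num⟩
    · right; right; left; exact ⟨2, -1, by norm_num, by norm_num⟩
    · left; exact ⟨2, 1, by norm_num, by norm_num⟩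
    · right; left; exact ⟨2, -1, by norm_num, by norm_num⟩
  unfold vx vy
  rcases h (ord i.1 k) i.1 with ⟨m0, k0, h1, h2⟩ | ⟨m0, k0, h1, h2⟩ | ⟨m0, k0, h1, h2⟩ |
    ⟨m0, k0, h1, h2⟩
  · have := ok0p (m0 + i.2.1) (k0 + i.2.2)
    rw [h1, h2]; convert this using 2 <;> ring
  · have := ok0m (m0 + i.2.1) (k0 + i.2.2)
    rw [h1, h2]; convert this using 2 <;> ring
  · have := ok1p (m0 + i.2.1) (k0 + i.2.2)
    rw [h1, h2]; convert this using 2 <;> ring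
  · have := ok1m (m0 + i.2.1) (k0 + i.2.2)
    rw [h1, h2]; convert this using 2 <;> ring

theorem vertexDisjoint : VertexDisjoint T := by
  rintro V ⟨i, k, rfl⟩
  exact vertex_aux i k

end Pool.Agent.Helper97.Double
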