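import Mathlib
import Pool.Agent.Helper97.Double.Vertices

set_option autoImplicit false

namespace Pool.Agent.Helper97.Double

open Set

/-- the tiles containing `(X, Y)` in their interior -/
def cov (X Y : ℝ) : Set Idx :=
  {g | InPo (X - 8 * (g.2.1 : ℝ)) ((sg g.1 : ℝ) * (Y - 48 * (g.2.2 : ℝ)))}

/-- `(X, Y)` lies on the boundary of no tile -/
def Gen (X Y : ℝ) : Prop :=
  ∀ g : Idx, InP (X - 8 * (g.2.1 : ℝ)) ((sg g.1 : ℝ) * (Y - 48 * (g.2.2 : ℝ))) → g ∈ cov X Y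

lemma slice {X l r : ℝ} (hl : ∀ m : ℤ, X - 8 * (m : ℝ) ≠ l) (m : ℤ) :
    (l < X - 8 * (m : ℝ) ∧ X - 8 * (m : ℝ) < r) ↔
      m ∈ Finset.Ioc ⌊(X - r) / 8⌋ ⌊(X - l) / 8⌋ := by
  rw [Finset.mem_Ioc, Int.floor_lt, Int.le_floor, and_comm]
  refine and_congr ?_ ?_
  · rw [div_lt_iff₀ (by norm_num)]
    constructor <;> intro h <;> linarith
  · rw [le_div_iff₀ (by norm_num)]
    constructor
    · intro h; linarith
    · intro h
      rcases lt_or_eq_of_le (show l ≤ X - 8 * (m : ℝ) by linarith) with h' | h'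
      · exact h'
      · exact absurd h'.symm (hl m)

/-- embedding of a row of tiles -/
def emb (b : Bool) (k : ℤ) : ℤ ↪ Idx := ⟨fun m => (b, m, k), fun m m' h => by simpa using h⟩

lemma emb_eq (b b' : Bool) (k m m' k' : ℤ) :
    emb b k m' = (b', m, k') ↔ b = b' ∧ m' = m ∧ k = k' := by
  show ((b, m', k) : Idx) = (b', m, k') ↔ _
  simp

lemma count4 {S : Set Idx} (M1 M2 M3 M4 : Finset ℤ)
    (h : ∀ (b : Bool) (m k : ℤ), (b, m, k) ∈ S ↔ (b = true ∧ k = 0 ∧ m ∈ M1) ∨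
      (b = false ∧ k = 0 ∧ m ∈ M2) ∨ (b = false ∧ k = -1 ∧ m ∈ M3) ∨ (b = true ∧ k = 1 ∧ m ∈ M4))
    (hc : M1.card + M2.card + M3.card + M4.card = 2) : S.encard = 2 := by
  classical
  have hS : S = ↑(((M1.map (emb true 0) ∪ M2.map (emb false 0)) ∪ M3.map (emb false (-1))) ∪
      M4.map (emb true 1)) := by
    ext ⟨b, m, k⟩
    rw [h]
    simp only [Finset.coe_union, Finset.coe_map, mem_union, mem_image, Finset.mem_coe, emb_eq]
    constructor
    · rintro (⟨rfl, rfl, h⟩ | ⟨rfl, rfl, h⟩ | ⟨rfl, rfl, h⟩ | ⟨rfl, rfl, h⟩)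
      · exact Or.inl (Or.inl (Or.inl ⟨m, h, rfl, rfl, rfl⟩))
      · exact Or.inl (Or.inl (Or.inr ⟨m, h, rfl, rfl, rfl⟩))
      · exact Or.inl (Or.inr ⟨m, h, rfl, rfl, rfl⟩)
      · exact Or.inr ⟨m, h, rfl, rfl, rfl⟩
    · rintro (((⟨m', h, rfl, rfl, rfl⟩ | ⟨m', h, rfl, rfl, rfl⟩) | ⟨m', h, rfl, rfl, rfl⟩) |
        ⟨m', h, rfl, rfl, rfl⟩)
      · exact Or.inl ⟨rfl, rfl, h⟩
      · exact Or.inr (Or.inl ⟨rfl, rfl, h⟩)
      · exact Or.inr (Or.inr (Or.inl ⟨rfl, rfl, h⟩))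
      · exact Or.inr (Or.inr (Or.inr ⟨rfl, rfl, h⟩))
  rw [hS, encard_coe_eq_coe_finsetCard, Finset.card_union_of_disjoint,
    Finset.card_union_of_disjoint, Finset.card_union_of_disjoint, Finset.card_map, Finset.card_map,
    Finset.card_map, Finset.card_map, hc]
  · rfl
  all_goals
    rw [Finset.disjoint_left]
    rintro ⟨b, m, k⟩ h1 h2
    simp only [Finset.mem_union, Finset.mem_map, emb_eq] at h1 h2
    obtain ⟨m2, -, h21, h22, h23⟩ := h2
    revert h1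
    subst h21 h22 h23
    simp

lemma cov_mem (X Y : ℝ) (b : Bool) (m k : ℤ) : (b, m, k) ∈ cov X Y ↔
    InPo (X - 8 * (m : ℝ)) ((sg b : ℝ) * (Y - 48 * (k : ℝ))) := Iff.rfl

/-- vertical range -/
lemma rows {X Y : ℝ} (h1 : -24 ≤ Y) (h2 : Y ≤ 0) {b : Bool} {m k : ℤ} (h : (b, m, k) ∈ cov X Y) :
    (b = true ∧ k = 0) ∨ (b = false ∧ k = 0) ∨ (b = false ∧ k = -1) ∨ (b = true ∧ k = 1) := by
  rw [cov_mem, inPo_iff] at h
  obtain ⟨g0, g1, g2, g3, g4, g5, g6, g7⟩ := h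
  cases b
  · simp only [sg_false] at g0 g1 g2 g3 g4 g5 g6 g7
    push_cast at g0 g1 g2 g3 g4 g5 g6 g7
    have u1 : (k : ℝ) < 1 := by linarith
    have u2 : (-2 : ℝ) < k := by linarith
    have u1' : k < 1 := by exact_mod_cast u1
    have u2' : -2 < k := by exact_mod_cast u2
    have : k = 0 ∨ k = -1 := by omega
    rcases this with h | h <;> simp [h]
  · simp only [sg_true] at g0 g1 g2 g3 g4 g5 g6 g7
    push_cast at g0 g1 g2 g3 g4 g5 g6 g7
    have u1 : (k : ℝ) < 2 := by linarith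
    have u2 : (-1 : ℝ) < k := by linarith
    have u1' : k < 2 := by exact_mod_cast u1
    have u2' : -1 < k := by exact_mod_cast u2
    have : k = 0 ∨ k = 1 := by omega
    rcases this with h | h <;> simp [h]

/-- counting from the description of the four rows -/
lemma count_rows {X Y : ℝ} (h1 : -24 ≤ Y) (h2 : Y ≤ 0) (M1 M2 M3 M4 : Finset ℤ)
    (e1 : ∀ m : ℤ, (true, m, 0) ∈ cov X Y ↔ m ∈ M1)
    (e2 : ∀ m : ℤ, (false, m, 0) ∈ cov X Y ↔ m ∈ M2)
    (e3 : ∀ m : ℤ, (false, m, -1) ∈ cov X Y ↔ m ∈ M3)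
    (e4 : ∀ m : ℤ, (true, m, 1) ∈ cov X Y ↔ m ∈ M4)
    (hc : M1.card + M2.card + M3.card + M4.card = 2) : (cov X Y).encard = 2 := by
  refine count4 M1 M2 M3 M4 ?_ hc
  intro b m k
  constructor
  · intro h
    rcases rows h1 h2 h with ⟨rfl, rfl⟩ | ⟨rfl, rfl⟩ | ⟨rfl, rfl⟩ | ⟨rfl, rfl⟩
    · exact Or.inl ⟨rfl, rfl, (e1 m).mp h⟩
    · exact Or.inr (Or.inl ⟨rfl, rfl, (e2 m).mp h⟩)
    · exact Or.inr (Or.inr (Or.inl ⟨rfl, rfl, (e3 m).mp h⟩))
    · exact Or.inr (Or.inr (Or.inr ⟨rfl, rfl, (e4 m).mp h⟩))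
  · rintro (⟨rfl, rfl, h⟩ | ⟨rfl, rfl, h⟩ | ⟨rfl, rfl, h⟩ | ⟨rfl, rfl, h⟩)
    · exact (e1 m).mpr h
    · exact (e2 m).mpr h
    · exact (e3 m).mpr h
    · exact (e4 m).mpr h

/-- A row of tiles: on the given horizontal line it consists of the intervals `(l, r) + 8 ℤ`. -/
lemma row_mem {X Y : ℝ} (hG : Gen X Y) (b : Bool) (k : ℤ) (l r : ℝ)
    (h : ∀ x : ℝ, InPo x ((sg b : ℝ) * (Y - 48 * (k : ℝ))) ↔ l < x ∧ x < r)
    (h' : InP l ((sg b : ℝ) * (Y - 48 * (k : ℝ)))) (m : ℤ) :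
    (b, m, k) ∈ cov X Y ↔ m ∈ Finset.Ioc ⌊(X - r) / 8⌋ ⌊(X - l) / 8⌋ := by
  rw [← slice, cov_mem, h]
  intro m' hm'
  have := hG (b, m', k) (by simpa [hm'] using h')
  rw [cov_mem, h, hm'] at this
  exact lt_irrefl _ this.1

lemma row_empty {X Y : ℝ} (b : Bool) (k : ℤ)
    (h : ∀ x : ℝ, ¬ InPo x ((sg b : ℝ) * (Y - 48 * (k : ℝ)))) (m : ℤ) :
    (b, m, k) ∈ cov X Y ↔ m ∈ (∅ : Finset ℤ) := by
  simp only [cov_mem, Finset.notMem_empty, iff_false]
  exact h _

lemma floor_shift (X l r : ℝ) (c : ℤ) (h : r = l + 8 * c) :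
    ⌊(X - r) / 8⌋ = ⌊(X - l) / 8⌋ - c := by
  have : (X - r) / 8 = (X - l) / 8 - c := by rw [h]; ring
  rw [this, Int.floor_sub_intCast]

lemma floor_mono (X : ℝ) {l r : ℝ} (h : l ≤ r) : ⌊(X - r) / 8⌋ ≤ ⌊(X - l) / 8⌋ :=
  Int.floor_le_floor (by linarith)

lemma case1 {X Y : ℝ} (hG : Gen X Y) (h1 : -24 ≤ Y) (h2 : Y ≤ -6) : (cov X Y).encard = 2 := by
  refine count_rows h1 (by linarith)
    (Finset.Ioc ⌊(X - (-24 - 4 * Y) / 9) / 8⌋ ⌊(X - (-96 - 4 * Y) / 9) / 8⌋) ∅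
    (Finset.Ioc ⌊(X - (168 + 4 * Y) / 9) / 8⌋ ⌊(X - (96 + 4 * Y) / 9) / 8⌋) ∅ ?_ ?_ ?_ ?_ ?_
  · refine row_mem hG true 0 _ _ ?_ ?_
    · intro x; rw [inPo_iff]; simp only [sg_true]; push_cast
      constructor
      · rintro ⟨g0, g1, g2, g3, g4, g5, g6, g7⟩; constructor <;> linarith
      · rintro ⟨g0, g1⟩; refine ⟨?_, ?_, ?_, ?_, ?_, ?_, ?_, ?_⟩ <;> linarith
    · rw [inP_iff]; simp only [sg_true]; push_cast
      refine ⟨?_, ?_, ?_, ?_, ?_, ?_, ?_, ?_⟩ <;> linarith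
  · refine row_empty false 0 ?_
    intro x; rw [inPo_iff]; simp only [sg_false]; push_cast
    rintro ⟨g0, g1, g2, g3, g4, g5, g6, g7⟩; linarith
  · refine row_mem hG false (-1) _ _ ?_ ?_
    · intro x; rw [inPo_iff]; simp only [sg_false]; push_cast
      constructor
      · rintro ⟨g0, g1, g2, g3, g4, g5, g6, g7⟩; constructor <;> linarith
      · rintro ⟨g0, g1⟩; refine ⟨?_, ?_, ?_, ?_, ?_, ?_, ?_, ?_⟩ <;> linarith
    · rw [inP_iff]; simp only [sg_false]; push_cast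
      refine ⟨?_, ?_, ?_, ?_, ?_, ?_, ?_, ?_⟩ <;> linarith
  · refine row_empty true 1 ?_
    intro x; rw [inPo_iff]; simp only [sg_true]; push_cast
    rintro ⟨g0, g1, g2, g3, g4, g5, g6, g7⟩; linarith
  · have f1 := floor_shift X ((-96 - 4 * Y) / 9) ((-24 - 4 * Y) / 9) 1 (by push_cast; ring)
    have f2 := floor_shift X ((96 + 4 * Y) / 9) ((168 + 4 * Y) / 9) 1 (by push_cast; ring)
    simp only [Int.card_Ioc, Finset.card_empty]
    omega

lemma case2 {X Y : ℝ} (hG : Gen X Y) (h1 : -6 ≤ Y) (h2 : Y ≤ -2) : (cov X Y).encard = 2 := by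
  refine count_rows (by linarith) (by linarith)
    (Finset.Ioc ⌊(X - (-6 - Y) / 2) / 8⌋ ⌊(X - (-38 - Y) / 4) / 8⌋)
    (Finset.Ioc ⌊(X - (-14 + 3 * Y) / 4) / 8⌋ ⌊(X - (-22 - Y) / 2) / 8⌋)
    (Finset.Ioc ⌊(X - (58 - Y) / 4) / 8⌋ ⌊(X - (50 + 3 * Y) / 4) / 8⌋) ∅ ?_ ?_ ?_ ?_ ?_
  · refine row_mem hG true 0 _ _ ?_ ?_
    · intro x; rw [inPo_iff]; simp only [sg_true]; push_cast
      constructor
      · rintro ⟨g0, g1, g2, g3, g4, g5, g6, g7⟩; constructor <;> linarith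
      · rintro ⟨g0, g1⟩; refine ⟨?_, ?_, ?_, ?_, ?_, ?_, ?_, ?_⟩ <;> linarith
    · rw [inP_iff]; simp only [sg_true]; push_cast
      refine ⟨?_, ?_, ?_, ?_, ?_, ?_, ?_, ?_⟩ <;> linarith
  · refine row_mem hG false 0 _ _ ?_ ?_
    · intro x; rw [inPo_iff]; simp only [sg_false]; push_cast
      constructor
      · rintro ⟨g0, g1, g2, g3, g4, g5, g6, g7⟩; constructor <;> linarith
      · rintro ⟨g0, g1⟩; refine ⟨?_, ?_, ?_, ?_, ?_, ?_, ?_, ?_⟩ <;> linarith
    · rw [inP_iff]; simp only [sg_false]; push_cast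
      refine ⟨?_, ?_, ?_, ?_, ?_, ?_, ?_, ?_⟩ <;> linarith
  · refine row_mem hG false (-1) _ _ ?_ ?_
    · intro x; rw [inPo_iff]; simp only [sg_false]; push_cast
      constructor
      · rintro ⟨g0, g1, g2, g3, g4, g5, g6, g7⟩; constructor <;> linarith
      · rintro ⟨g0, g1⟩; refine ⟨?_, ?_, ?_, ?_, ?_, ?_, ?_, ?_⟩ <;> linarith
    · rw [inP_iff]; simp only [sg_false]; push_cast
      refine ⟨?_, ?_, ?_, ?_, ?_, ?_, ?_, ?_⟩ <;> linarith
  · refine row_empty true 1 ?_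
    intro x; rw [inPo_iff]; simp only [sg_true]; push_cast
    rintro ⟨g0, g1, g2, g3, g4, g5, g6, g7⟩; linarith
  · have f1 := floor_shift X ((-38 - Y) / 4) ((58 - Y) / 4) 3 (by push_cast; ring)
    have f2 := floor_shift X ((-22 - Y) / 2) ((-6 - Y) / 2) 1 (by push_cast; ring)
    have f3 := floor_shift X ((50 + 3 * Y) / 4) ((-14 + 3 * Y) / 4) (-2) (by push_cast; ring)
    have g1 := floor_mono X (l := (-38 - Y) / 4) (r := (-6 - Y) / 2) (by linarith)
    have g2 := floor_mono X (l := (-22 - Y) / 2) (r := (-14 + 3 * Y) / 4) (by linarith)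
    have g3 := floor_mono X (l := (50 + 3 * Y) / 4) (r := (58 - Y) / 4) (by linarith)
    simp only [Int.card_Ioc, Finset.card_empty]
    omega

lemma case3 {X Y : ℝ} (hG : Gen X Y) (h1 : -2 ≤ Y) (h2 : Y ≤ 0) : (cov X Y).encard = 2 := by
  refine count_rows (by linarith) (by linarith)
    (Finset.Ioc ⌊(X - (-14 - 3 * Y) / 4) / 8⌋ ⌊(X - (-38 - Y) / 4) / 8⌋)
    (Finset.Ioc ⌊(X - (-14 + 3 * Y) / 4) / 8⌋ ⌊(X - (-38 + Y) / 4) / 8⌋)
    (Finset.Ioc ⌊(X - (58 - Y) / 4) / 8⌋ ⌊(X - (50 + 3 * Y) / 4) / 8⌋)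
    (Finset.Ioc ⌊(X - (58 + Y) / 4) / 8⌋ ⌊(X - (50 - 3 * Y) / 4) / 8⌋) ?_ ?_ ?_ ?_ ?_
  · refine row_mem hG true 0 _ _ ?_ ?_
    · intro x; rw [inPo_iff]; simp only [sg_true]; push_cast
      constructor
      · rintro ⟨g0, g1, g2, g3, g4, g5, g6, g7⟩; constructor <;> linarith
      · rintro ⟨g0, g1⟩; refine ⟨?_, ?_, ?_, ?_, ?_, ?_, ?_, ?_⟩ <;> linarith
    · rw [inP_iff]; simp only [sg_true]; push_cast
      refine ⟨?_, ?_, ?_, ?_, ?_, ?_, ?_, ?_⟩ <;> linarith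
  · refine row_mem hG false 0 _ _ ?_ ?_
    · intro x; rw [inPo_iff]; simp only [sg_false]; push_cast
      constructor
      · rintro ⟨g0, g1, g2, g3, g4, g5, g6, g7⟩; constructor <;> linarith
      · rintro ⟨g0, g1⟩; refine ⟨?_, ?_, ?_, ?_, ?_, ?_, ?_, ?_⟩ <;> linarith
    · rw [inP_iff]; simp only [sg_false]; push_cast
      refine ⟨?_, ?_, ?_, ?_, ?_, ?_, ?_, ?_⟩ <;> linarith
  · refine row_mem hG false (-1) _ _ ?_ ?_
    · intro x; rw [inPo_iff]; simp only [sg_false]; push_cast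
      constructor
      · rintro ⟨g0, g1, g2, g3, g4, g5, g6, g7⟩; constructor <;> linarith
      · rintro ⟨g0, g1⟩; refine ⟨?_, ?_, ?_, ?_, ?_, ?_, ?_, ?_⟩ <;> linarith
    · rw [inP_iff]; simp only [sg_false]; push_cast
      refine ⟨?_, ?_, ?_, ?_, ?_, ?_, ?_, ?_⟩ <;> linarith
  · refine row_mem hG true 1 _ _ ?_ ?_
    · intro x; rw [inPo_iff]; simp only [sg_true]; push_cast
      constructor
      · rintro ⟨g0, g1, g2, g3, g4, g5, g6, g7⟩; constructor <;> linarith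
      · rintro ⟨g0, g1⟩; refine ⟨?_, ?_, ?_, ?_, ?_, ?_, ?_, ?_⟩ <;> linarith
    · rw [inP_iff]; simp only [sg_true]; push_cast
      refine ⟨?_, ?_, ?_, ?_, ?_, ?_, ?_, ?_⟩ <;> linarith
  · have f1 := floor_shift X ((-38 - Y) / 4) ((58 - Y) / 4) 3 (by push_cast; ring)
    have f2 := floor_shift X ((-38 + Y) / 4) ((58 + Y) / 4) 3 (by push_cast; ring)
    have f3 := floor_shift X ((50 + 3 * Y) / 4) ((-14 + 3 * Y) / 4) (-2) (by push_cast; ring)
    have f4 := floor_shift X ((50 - 3 * Y) / 4) ((-14 - 3 * Y) / 4) (-2) (by push_cast; ring)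
    have g1 := floor_mono X (l := (-38 - Y) / 4) (r := (-14 - 3 * Y) / 4) (by linarith)
    have g2 := floor_mono X (l := (-38 + Y) / 4) (r := (-14 + 3 * Y) / 4) (by linarith)
    have g3 := floor_mono X (l := (50 + 3 * Y) / 4) (r := (58 - Y) / 4) (by linarith)
    have g4 := floor_mono X (l := (50 - 3 * Y) / 4) (r := (58 + Y) / 4) (by linarith)
    simp only [Int.card_Ioc, Finset.card_empty]
    omega

lemma case_strip {X Y : ℝ} (hG : Gen X Y) (h1 : -24 ≤ Y) (h2 : Y ≤ 0) :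
    (cov X Y).encard = 2 := by
  rcases le_total Y (-6) with h | h
  · exact case1 hG h1 h
  · rcases le_total Y (-2) with h' | h'
    · exact case2 hG h h'
    · exact case3 hG h' h2

/-- flip of the indices -/
def flipE : Idx ≃ Idx where
  toFun g := (!g.1, g.2.1, -g.2.2)
  invFun g := (!g.1, g.2.1, -g.2.2)
  left_inv g := by simp
  right_inv g := by simp

lemma flip_coord (Y : ℝ) (g : Idx) : (sg (flipE g).1 : ℝ) * (-Y - 48 * ((flipE g).2.2 : ℝ)) =
    (sg g.1 : ℝ) * (Y - 48 * (g.2.2 : ℝ)) := by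
  obtain ⟨b, m, k⟩ := g
  simp only [flipE, Equiv.coe_fn_mk, sg_not]
  push_cast; ring

/-- vertical shift of the indices -/
def shiftE (k0 : ℤ) : Idx ≃ Idx where
  toFun g := (g.1, g.2.1, g.2.2 - k0)
  invFun g := (g.1, g.2.1, g.2.2 + k0)
  left_inv g := by simp
  right_inv g := by simp

lemma shift_coord (Y : ℝ) (k0 : ℤ) (g : Idx) :
    (sg (shiftE k0 g).1 : ℝ) * (Y - 48 * k0 - 48 * ((shiftE k0 g).2.2 : ℝ)) =
    (sg g.1 : ℝ) * (Y - 48 * (g.2.2 : ℝ)) := by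
  obtain ⟨b, m, k⟩ := g
  simp only [shiftE, Equiv.coe_fn_mk]
  push_cast; ring

lemma transfer {X Y Y' : ℝ} (e : Idx ≃ Idx) (h1 : ∀ g, (e g).2.1 = g.2.1)
    (h2 : ∀ g : Idx, (sg (e g).1 : ℝ) * (Y' - 48 * ((e g).2.2 : ℝ)) =
      (sg g.1 : ℝ) * (Y - 48 * (g.2.2 : ℝ))) :
    (Gen X Y → Gen X Y') ∧ (cov X Y').encard = (cov X Y).encard := by
  have hm : ∀ g, e g ∈ cov X Y' ↔ g ∈ cov X Y := by
    intro g
    simp only [cov, mem_ofPred_eq, h1, h2]
  constructor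
  · intro hG g
    obtain ⟨g', rfl⟩ := e.surjective g
    rw [h1, h2, hm]
    exact hG g'
  · have : cov X Y' = e '' cov X Y := by
      ext g
      obtain ⟨g', rfl⟩ := e.surjective g
      rw [hm, e.injective.mem_set_image]
    rw [this, e.injective.encard_image]

lemma cov_encard {X Y : ℝ} (hG : Gen X Y) : (cov X Y).encard = 2 := by
  set k0 : ℤ := ⌊(Y + 24) / 48⌋ with hk0
  have a1 : (k0 : ℝ) ≤ (Y + 24) / 48 := Int.floor_le _
  have a2 : (Y + 24) / 48 < k0 + 1 := Int.lt_floor_add_one _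
  have t1 := transfer (X := X) (Y := Y) (Y' := Y - 48 * k0) (shiftE k0) (fun g => rfl)
    (shift_coord Y k0)
  rw [← t1.2]
  have hG' := t1.1 hG
  rcases le_total (Y - 48 * k0) 0 with h | h
  · exact case_strip hG' (by linarith) h
  · have t2 := transfer (X := X) (Y := Y - 48 * k0) (Y' := -(Y - 48 * k0)) flipE (fun g => rfl)
      (flip_coord _)
    rw [← t2.2]
    exact case_strip (t2.1 hG') (by linarith) (by linarith)

lemma locally_finite (B : Set Plane) (hB : Bornology.IsBounded B) :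
    {g | ((T g).carrier ∩ B).Nonempty}.Finite := by
  obtain ⟨R, hR⟩ := hB.subset_closedBall (0 : Plane)
  obtain ⟨N, hN⟩ := exists_nat_ge (R + 50)
  refine Set.Finite.subset ((Set.finite_univ (α := Bool)).prod
    ((Set.finite_Icc (-(N : ℤ)) N).prod (Set.finite_Icc (-(N : ℤ)) N))) ?_
  rintro ⟨b, m, k⟩ ⟨p, hp, hpB⟩
  have hn := hR hpB
  rw [mem_closedBall_zero_iff] at hn
  have n0 := (abs_le.mp ((PiLp.norm_apply_le p 0).trans hn))
  have n1 := (abs_le.mp ((PiLp.norm_apply_le p 1).trans hn))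
  rw [mem_carrier, inP_iff] at hp
  obtain ⟨g0, g1, g2, g3, g4, g5, g6, g7⟩ := hp
  have hN0 : (0 : ℝ) ≤ N := Nat.cast_nonneg N
  cases b
  · simp only [sg_false] at g0 g1 g2 g3 g4 g5 g6 g7
    push_cast at g0 g1 g2 g3 g4 g5 g6 g7
    have u1 : (m : ℝ) ≤ N := by linarith [n0.1, n0.2, n1.1, n1.2]
    have u2 : (-N : ℝ) ≤ m := by linarith [n0.1, n0.2, n1.1, n1.2]
    have u3 : (k : ℝ) ≤ N := by linarith [n0.1, n0.2, n1.1, n1.2]
    have u4 : (-N : ℝ) ≤ k := by linarith [n0.1, n0.2, n1.1, n1.2]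
    exact ⟨mem_univ _, ⟨by exact_mod_cast u2, by exact_mod_cast u1⟩,
      ⟨by exact_mod_cast u4, by exact_mod_cast u3⟩⟩
  · simp only [sg_true] at g0 g1 g2 g3 g4 g5 g6 g7
    push_cast at g0 g1 g2 g3 g4 g5 g6 g7
    have u1 : (m : ℝ) ≤ N := by linarith [n0.1, n0.2, n1.1, n1.2]
    have u2 : (-N : ℝ) ≤ m := by linarith [n0.1, n0.2, n1.1, n1.2]
    have u3 : (k : ℝ) ≤ N := by linarith [n0.1, n0.2, n1.1, n1.2]
    have u4 : (-N : ℝ) ≤ k := by linarith [n0.1, n0.2, n1.1, n1.2]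
    exact ⟨mem_univ _, ⟨by exact_mod_cast u2, by exact_mod_cast u1⟩,
      ⟨by exact_mod_cast u4, by exact_mod_cast u3⟩⟩

/-- The family is a multiple tiling of density 2. -/
theorem isMultipleTiling : IsMultipleTiling T 2 := by
  refine ⟨locally_finite, ?_⟩
  intro x hx
  have hG : Gen (x 0) (x 1) := by
    intro g hg
    by_contra hcon
    exact hx g ((mem_frontier g x).mpr ⟨(mem_carrier g x).mpr hg,
      fun h => hcon ((mem_interior g x).mp h)⟩)
  have : {i | x ∈ interior (T i).carrier} = cov (x 0) (x 1) := by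
    ext g; exact mem_interior g x
  rw [this, cov_encard hG]
  rfl

/-- Every test point is covered by exactly two tiles; a subfamily of density 1 contains exactly
one of the two. -/
lemma test_point {S : Idx → Prop} (hS : IsMultipleTiling (fun i : {i // S i} => T i.1) 1)
    (p q : ℤ) (g1 g2 : Idx) (hne : g1 ≠ g2) (h : ∀ g, inZ p q g → g = g1 ∨ g = g2)
    (h1 : inZo p q g1) (h2 : inZo p q g2) : S g1 ↔ ¬ S g2 := by
  have hle : ∀ g, inZo p q g → inZ p q g := fun g hg κ => (hg κ).le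
  have hd := hS.2 (pt p q) (by
    intro i hi
    rw [pt_mem_frontier] at hi
    rcases h _ hi.1 with e | e
    · exact hi.2 (e ▸ h1)
    · exact hi.2 (e ▸ h2))
  rw [Nat.cast_one, encard_eq_one] at hd
  obtain ⟨i0, hi0⟩ := hd
  constructor
  · intro s1 s2
    have m1 : (⟨g1, s1⟩ : {i // S i}) ∈ {i : {i // S i} | pt p q ∈ interior (T i.1).carrier} :=
      (pt_mem_interior p q g1).mpr h1
    have m2 : (⟨g2, s2⟩ : {i // S i}) ∈ {i : {i // S i} | pt p q ∈ interior (T i.1).carrier} :=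
      (pt_mem_interior p q g2).mpr h2
    rw [hi0, mem_singleton_iff] at m1 m2
    exact hne (congrArg Subtype.val (m1.trans m2.symm))
  · intro s2
    by_contra s1
    have m0 : i0 ∈ {i : {i // S i} | pt p q ∈ interior (T i.1).carrier} := by
      rw [hi0]; exact mem_singleton _
    have := (pt_mem_interior p q i0.1).mp m0
    rcases h _ (hle _ this) with e | e
    · exact s1 (e ▸ i0.2)
    · exact s2 (e ▸ i0.2)

theorem irreducible : Irreducible T 2 := by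
  rintro ⟨r, f, e, hr, h⟩
  obtain ⟨h1, h2, hS⟩ := h ⟨0, by omega⟩
  have he : e ⟨0, by omega⟩ = 1 := by omega
  rw [he] at hS
  have t0 := test_point hS 2 2 (true, 1, 0) (false, 1, 0) (by simp)
    (by
      rintro ⟨b, m, k⟩ hz
      rw [inZ_iff] at hz
      revert hz
      cases b <;> simp only [sg_true, sg_false, Prod.mk.injEq, true_and, false_and, false_or,
        or_false, reduceCtorEq] <;> intro hz <;>
        (have k1 : -4 < k := by omega) <;> (have k2 : k < 4 := by omega) <;>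
        interval_cases k <;> omega)
    (by rw [inZo_iff]; simp) (by rw [inZo_iff]; simp)
  have t1 := test_point hS (-1) (-3) (false, 1, 0) (false, -2, -1) (by simp)
    (by
      rintro ⟨b, m, k⟩ hz
      rw [inZ_iff] at hz
      revert hz
      cases b <;> simp only [sg_true, sg_false, Prod.mk.injEq, true_and, false_and, false_or,
        or_false, reduceCtorEq] <;> intro hz <;>
        (have k1 : -4 < k := by omega) <;> (have k2 : k < 4 := by omega) <;>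
        interval_cases k <;> omega)
    (by rw [inZo_iff]; simp) (by rw [inZo_iff]; simp)
  have t2 := test_point hS (-2) (-10) (false, -2, -1) (true, 0, 0) (by simp)
    (by
      rintro ⟨b, m, k⟩ hz
      rw [inZ_iff] at hz
      revert hz
      cases b <;> simp only [sg_true, sg_false, Prod.mk.injEq, true_and, false_and, false_or,
        or_false, reduceCtorEq] <;> intro hz <;>
        (have k1 : -4 < k := by omega) <;> (have k2 : k < 4 := by omega) <;>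
        interval_cases k <;> omega)
    (by rw [inZo_iff]; simp) (by rw [inZo_iff]; simp)
  have t3 := test_point hS 0 (-12) (true, 0, 0) (false, -1, -1) (by simp)
    (by
      rintro ⟨b, m, k⟩ hz
      rw [inZ_iff] at hz
      revert hz
      cases b <;> simp only [sg_true, sg_false, Prod.mk.injEq, true_and, false_and, false_or,
        or_false, reduceCtorEq] <;> intro hz <;>
        (have k1 : -4 < k := by omega) <;> (have k2 : k < 4 := by omega) <;>
        interval_cases k <;> omega)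
    (by rw [inZo_iff]; simp) (by rw [inZo_iff]; simp)
  have t4 := test_point hS 2 (-8) (false, -1, -1) (true, 1, 0) (by simp)
    (by
      rintro ⟨b, m, k⟩ hz
      rw [inZ_iff] at hz
      revert hz
      cases b <;> simp only [sg_true, sg_false, Prod.mk.injEq, true_and, false_and, false_or,
        or_false, reduceCtorEq] <;> intro hz <;>
        (have k1 : -4 < k := by omega) <;> (have k2 : k < 4 := by omega) <;>
        interval_cases k <;> omega)
    (by rw [inZo_iff]; simp) (by rw [inZo_iff]; simp)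
  tauto

end Pool.Agent.Helper97.Double
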