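import Mathlib
import Pool.Agent.Helper97.Double.Example

set_option autoImplicit false

namespace Pool.Agent.Helper97.Double

open Set

/-- the neighbour of the base tile across side `κ` -/
def nb : ZMod 8 → Idx :=
  ![(false, 1, 0), (true, -2, 1), (false, -1, 0), (false, -3, -1), (true, -1, 0), (true, 2, -1),
    (false, 3, -1), (true, 1, 0)]

/-- smallest abscissa on side `κ` -/
def lo : ZMod 8 → ℤ := ![-2, -8, -10, -10, -8, 8, 14, 0]
/-- largest abscissa on side `κ` -/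
def hi : ZMod 8 → ℤ := ![0, -2, -8, -8, 8, 14, 16, 16]

@[simp] lemma nb0 : nb 0 = (false, 1, 0) := rfl
@[simp] lemma nb1 : nb 1 = (true, -2, 1) := rfl
@[simp] lemma nb2 : nb 2 = (false, -1, 0) := rfl
@[simp] lemma nb3 : nb 3 = (false, -3, -1) := rfl
@[simp] lemma nb4 : nb 4 = (true, -1, 0) := rfl
@[simp] lemma nb5 : nb 5 = (true, 2, -1) := rfl
@[simp] lemma nb6 : nb 6 = (false, 3, -1) := rfl
@[simp] lemma nb7 : nb 7 = (true, 1, 0) := rfl
@[simp] lemma lo0 : lo 0 = -2 := rfl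
@[simp] lemma lo1 : lo 1 = -8 := rfl
@[simp] lemma lo2 : lo 2 = -10 := rfl
@[simp] lemma lo3 : lo 3 = -10 := rfl
@[simp] lemma lo4 : lo 4 = -8 := rfl
@[simp] lemma lo5 : lo 5 = 8 := rfl
@[simp] lemma lo6 : lo 6 = 14 := rfl
@[simp] lemma lo7 : lo 7 = 0 := rfl
@[simp] lemma hi0 : hi 0 = 0 := rfl
@[simp] lemma hi1 : hi 1 = -2 := rfl
@[simp] lemma hi2 : hi 2 = -8 := rfl
@[simp] lemma hi3 : hi 3 = -8 := rfl
@[simp] lemma hi4 : hi 4 = 8 := rfl
@[simp] lemma hi5 : hi 5 = 14 := rfl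
@[simp] lemma hi6 : hi 6 = 16 := rfl
@[simp] lemma hi7 : hi 7 = 16 := rfl

lemma range_of_line {x y : ℝ} (h : InP x y) (κ : ZMod 8)
    (hk : (cA κ : ℝ) * x + (cB κ : ℝ) * y = cC κ) : (lo κ : ℝ) ≤ x ∧ x ≤ hi κ := by
  rw [inP_iff] at h
  obtain ⟨h0, h1, h2, h3, h4, h5, h6, h7⟩ := h
  have key : ∀ κ : ZMod 8, (cA κ : ℝ) * x + (cB κ : ℝ) * y = cC κ →
      (lo κ : ℝ) ≤ x ∧ x ≤ hi κ := by
    rw [forall_zmod8]
    simp only [cA0, cA1, cA2, cA3, cA4, cA5, cA6, cA7, cB0, cB1, cB2, cB3, cB4, cB5, cB6, cB7,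
      cC0, cC1, cC2, cC3, cC4, cC5, cC6, cC7, lo0, lo1, lo2, lo3, lo4, lo5, lo6, lo7,
      hi0, hi1, hi2, hi3, hi4, hi5, hi6, hi7]
    push_cast
    refine ⟨?_, ?_, ?_, ?_, ?_, ?_, ?_, ?_⟩ <;> intro hk <;> constructor <;> linarith
  exact key κ hk

lemma int_lines (κ κ' : ZMod 8) (b : Bool) (m k : ℤ)
    (h1 : cA κ * (sg b * cB κ') = cA κ' * cB κ)
    (h2 : cA κ' * cC κ = cA κ * (cC κ' + 8 * cA κ' * m + 48 * (sg b * cB κ') * k))
    (h4 : lo κ - hi κ' ≤ 8 * m) (h5 : 8 * m ≤ hi κ - lo κ') :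
    (b, m, k) = ((true, 0, 0) : Idx) ∨ (b, m, k) = nb κ := by
  revert κ κ'
  rw [forall_zmod8]
  refine ⟨?_, ?_, ?_, ?_, ?_, ?_, ?_, ?_⟩ <;> rw [forall_zmod8] <;>
  refine ⟨?_, ?_, ?_, ?_, ?_, ?_, ?_, ?_⟩ <;> cases b <;>
    simp only [cA0, cA1, cA2, cA3, cA4, cA5, cA6, cA7, cB0, cB1, cB2, cB3, cB4, cB5, cB6, cB7,
      cC0, cC1, cC2, cC3, cC4, cC5, cC6, cC7, lo0, lo1, lo2, lo3, lo4, lo5, lo6, lo7,
      hi0, hi1, hi2, hi3, hi4, hi5, hi6, hi7, nb0, nb1, nb2, nb3, nb4, nb5, nb6, nb7, sg_true,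
      sg_false, Prod.mk.injEq, true_and, false_and, false_or, or_false, reduceCtorEq] <;>
    intro h1 h2 h4 h5 <;> omega

/-- local coordinates -/
lemma line_of_frontier {g : Idx} {a b : Plane} (h : segment ℝ a b ⊆ frontier (T g).carrier) :
    ∃ κ' : ZMod 8, ∀ p : Plane, (p = a ∨ p = b) →
      InP (p 0 - 8 * (g.2.1 : ℝ)) ((sg g.1 : ℝ) * (p 1 - 48 * (g.2.2 : ℝ))) ∧
      (cA κ' : ℝ) * (p 0 - 8 * (g.2.1 : ℝ)) +
        (cB κ' : ℝ) * ((sg g.1 : ℝ) * (p 1 - 48 * (g.2.2 : ℝ))) = cC κ' := by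
  have ha := (mem_frontier g a).mp (h (left_mem_segment ℝ a b))
  have hb := (mem_frontier g b).mp (h (right_mem_segment ℝ a b))
  set c : Plane := (1/2 : ℝ) • a + (1/2 : ℝ) • b with hc
  have hcm : c ∈ segment ℝ a b := ⟨1/2, 1/2, by norm_num, by norm_num, by norm_num, rfl⟩
  have hcf := (mem_frontier g c).mp (h hcm)
  rw [mem_interior, InPo, not_forall] at hcf
  obtain ⟨_, κ', hk⟩ := hcf
  refine ⟨κ', ?_⟩
  have ha' := (mem_carrier g a).mp ha.1
  have hb' := (mem_carrier g b).mp hb.1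
  have hak := ha' κ'
  have hbk := hb' κ'
  have c0 : c 0 = (1/2) * a 0 + (1/2) * b 0 := by simp [hc]
  have c1 : c 1 = (1/2) * a 1 + (1/2) * b 1 := by simp [hc]
  rw [c0, c1, not_lt] at hk
  have e : (cA κ' : ℝ) * ((1/2) * a 0 + (1/2) * b 0 - 8 * (g.2.1 : ℝ)) +
      (cB κ' : ℝ) * ((sg g.1 : ℝ) * ((1/2) * a 1 + (1/2) * b 1 - 48 * (g.2.2 : ℝ))) =
      (1/2) * ((cA κ' : ℝ) * (a 0 - 8 * (g.2.1 : ℝ)) +
        (cB κ' : ℝ) * ((sg g.1 : ℝ) * (a 1 - 48 * (g.2.2 : ℝ)))) +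
      (1/2) * ((cA κ' : ℝ) * (b 0 - 8 * (g.2.1 : ℝ)) +
        (cB κ' : ℝ) * ((sg g.1 : ℝ) * (b 1 - 48 * (g.2.2 : ℝ)))) := by ring
  rw [e] at hk
  rintro p (rfl | rfl)
  · exact ⟨ha', by linarith⟩
  · exact ⟨hb', by linarith⟩

lemma line_of_side {κ : ZMod 8} {p : Plane} (h : p ∈ segment ℝ (bv κ) (bv (κ + 1))) :
    InP (p 0) (p 1) ∧ (cA κ : ℝ) * p 0 + (cB κ : ℝ) * p 1 = cC κ := by
  constructor
  · have h1 : segment ℝ (bv κ) (bv (κ + 1)) ⊆ convexHull ℝ (range bv) :=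
      (convex_convexHull ℝ _).segment_subset (subset_convexHull ℝ _ (mem_range_self _))
        (subset_convexHull ℝ _ (mem_range_self _))
    have := h1 h
    rwa [hull_eq] at this
  · obtain ⟨s, t, hs, ht, hst, rfl⟩ := h
    have e1 : cA κ * cx κ + cB κ * cy κ = cC κ := by revert κ; decide
    have e2 : cA κ * cx (κ+1) + cB κ * cy (κ+1) = cC κ := by revert κ; decide
    have e1' : (cA κ : ℝ) * cx κ + cB κ * cy κ = cC κ := by exact_mod_cast e1
    have e2' : (cA κ : ℝ) * cx (κ+1) + cB κ * cy (κ+1) = cC κ := by exact_mod_cast e2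
    simp only [PiLp.add_apply, PiLp.smul_apply, smul_eq_mul, bv, pt_zero, pt_one]
    have : (cC κ : ℝ) = s * cC κ + t * cC κ := by rw [← add_mul, hst, one_mul]
    rw [this]
    nth_rewrite 1 [← e1']
    rw [← e2']
    ring

lemma base_edge {κ : ZMod 8} {a b : Plane} (hab : a ≠ b)
    (ha : a ∈ segment ℝ (bv κ) (bv (κ + 1))) (hb : b ∈ segment ℝ (bv κ) (bv (κ + 1))) :
    {j | segment ℝ a b ⊆ frontier (T j).carrier} ⊆ {((true, 0, 0) : Idx), nb κ} := by
  intro j hj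
  obtain ⟨κ', hκ'⟩ := line_of_frontier hj
  obtain ⟨ha1, ha2⟩ := line_of_side ha
  obtain ⟨hb1, hb2⟩ := line_of_side hb
  obtain ⟨ha3, ha4⟩ := hκ' a (Or.inl rfl)
  obtain ⟨hb3, hb4⟩ := hκ' b (Or.inr rfl)
  have hr1 := range_of_line ha1 κ ha2
  have hr2 := range_of_line ha3 κ' ha4
  obtain ⟨e, m, k⟩ := j
  simp only [] at ha4 hb4 hr2
  have hne : a 0 - b 0 ≠ 0 ∨ a 1 - b 1 ≠ 0 := by
    by_contra hcon
    push Not at hcon
    exact hab (plane_ext (by linarith [hcon.1]) (by linarith [hcon.2]))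
  have q0 : ((cA κ : ℝ) * (sg e * cB κ') - cA κ' * cB κ) * (a 0 - b 0) = 0 := by
    linear_combination (sg e * cB κ' : ℝ) * (ha2 - hb2) - (cB κ : ℝ) * (ha4 - hb4)
  have q1 : ((cA κ : ℝ) * (sg e * cB κ') - cA κ' * cB κ) * (a 1 - b 1) = 0 := by
    linear_combination (-(cA κ' : ℝ)) * (ha2 - hb2) + (cA κ : ℝ) * (ha4 - hb4)
  have q : (cA κ : ℝ) * (sg e * cB κ') = cA κ' * cB κ := by
    rcases hne with h | h
    · have := (mul_eq_zero.mp q0).resolve_right h
      linarith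
    · have := (mul_eq_zero.mp q1).resolve_right h
      linarith
  have q2 : (cA κ' : ℝ) * cC κ = cA κ * (cC κ' + 8 * cA κ' * m + 48 * (sg e * cB κ') * k) := by
    linear_combination (-(cA κ' : ℝ)) * ha2 + (cA κ : ℝ) * ha4 + (-(a 1)) * q
  have q4 : ((lo κ : ℝ)) - hi κ' ≤ 8 * m := by linarith [hr1.1, hr2.2]
  have q5 : (8 * m : ℝ) ≤ hi κ - lo κ' := by linarith [hr1.2, hr2.1]
  have := int_lines κ κ' e m k (by exact_mod_cast q) (by exact_mod_cast q2)
    (by exact_mod_cast q4) (by exact_mod_cast q5)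
  simpa using this


lemma carrier_comp (g h : Idx) : (T (compEquiv g h)).carrier = phi g '' (T h).carrier := by
  show (T (comp g h)).carrier = _
  rw [carrier_eq, carrier_eq, image_image]
  congr 1
  ext p : 1
  exact phi_comp g h p

lemma frontier_comp (g h : Idx) :
    frontier (T (compEquiv g h)).carrier = phi g '' frontier (T h).carrier := by
  rw [carrier_comp]
  exact ((phi g).toHomeomorph.image_frontier _).symm

lemma phi_segment (g : Idx) (a b : Plane) :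
    phi g '' segment ℝ a b = segment ℝ (phi g a) (phi g b) := by
  rw [← convexHull_pair, ← convexHull_pair, ← phi_convexHull]
  congr 1
  exact image_pair _ _ _

lemma pair_le {α : Type*} (x y : α) : ({x, y} : Set α).encard ≤ 2 := by
  calc ({x, y} : Set α).encard ≤ ({y} : Set α).encard + 1 := encard_insert_le _ _
    _ = 2 := by rw [encard_singleton]; rfl

lemma edge_aux (i : Idx) (k : ZMod 8) (a b : Plane) (hab : a ≠ b)
    (hseg : segment ℝ a b ⊆ (T i).side k) :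
    {j | segment ℝ a b ⊆ frontier (T j).carrier}.encard ≤ 2 := by
  set a' := (phi i).symm a with ha'
  set b' := (phi i).symm b with hb'
  have haa : phi i a' = a := by simp [ha']
  have hbb : phi i b' = b := by simp [hb']
  have hab' : a' ≠ b' := by
    intro h; apply hab; rw [← haa, ← hbb, h]
  have hset : {j | segment ℝ a b ⊆ frontier (T j).carrier} =
      compEquiv i '' {j | segment ℝ a' b' ⊆ frontier (T j).carrier} := by
    ext j
    obtain ⟨j', rfl⟩ := (compEquiv i).surjective j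
    rw [(compEquiv i).injective.mem_set_image]
    simp only [mem_ofPred_eq]
    rw [frontier_comp, ← haa, ← hbb, ← phi_segment, image_subset_image_iff (phi i).injective]
  rw [hset, (compEquiv i).injective.encard_image]
  -- the side of the base tile
  have hside : ∃ κ : ZMod 8, a' ∈ segment ℝ (bv κ) (bv (κ + 1)) ∧
      b' ∈ segment ℝ (bv κ) (bv (κ + 1)) := by
    have hs : (T i).side k = segment ℝ (phi i (bv (ord i.1 k))) (phi i (bv (ord i.1 (k + 1)))) := by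
      rw [← T_v i k, ← T_v i (k + 1)]
      rfl
    rw [hs, ← phi_segment] at hseg
    have h1 := hseg (left_mem_segment ℝ a b)
    have h2 := hseg (right_mem_segment ℝ a b)
    rw [← haa, (phi i).injective.mem_set_image] at h1
    rw [← hbb, (phi i).injective.mem_set_image] at h2
    obtain ⟨e, m, l⟩ := i
    cases e
    · refine ⟨-k-1, ?_⟩
      have e1 : ord false k = -k - 1 + 1 := by simp [ord]
      have e2 : ord false (k + 1) = -k - 1 := by simp [ord]; ring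
      simp only [] at h1 h2
      rw [segment_symm, e1, e2] at h1 h2
      exact ⟨h1, h2⟩
    · exact ⟨k, h1, h2⟩
  obtain ⟨κ, h1, h2⟩ := hside
  exact (encard_le_encard (base_edge hab' h1 h2)).trans (pair_le _ _)

theorem edgeDisjoint : EdgeDisjoint T := fun i k a b hab hseg => edge_aux i k a b hab hseg

end Pool.Agent.Helper97.Double
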